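import Pool.Agent.W544.PG.Defs8

/-!
# (HCC) From rational to complex coefficients
-/

set_option autoImplicit false

open Matrix Finset Module

namespace Pool.Agent.W125.TP.HCC

open Pool.Agent.W544.PG

noncomputable section

variable {n s m : ℕ}

/-- coefficient of the action -/
def D {K : Type} [Field K] (p q : Fin n) (J : Fin m → Fin s ⊕ Fin n)
    (t : (Fin m → Fin s ⊕ Fin n) → K) : K :=
  ∑ j, if J j = Sum.inr q then t (Function.update J j (Sum.inr p)) else 0

/-- coefficients of `D` as a functional -/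
def A (p q : Fin n) (J : Fin m → Fin s ⊕ Fin n) (x : Fin m → Fin s ⊕ Fin n) : ℚ :=
  ∑ j, if J j = Sum.inr q ∧ x = Function.update J j (Sum.inr p) then 1 else 0

lemma A_sum {K : Type} [Field K] (ι : ℚ →+* K) (p q : Fin n) (J : Fin m → Fin s ⊕ Fin n)
    (t : (Fin m → Fin s ⊕ Fin n) → K) : ∑ x, ι (A p q J x) * t x = D p q J t := by
  unfold A D
  simp only [map_sum, sum_mul]
  rw [sum_comm]
  refine sum_congr rfl fun j _ => ?_
  by_cases h : J j = Sum.inr q
  · rw [if_pos h, sum_eq_single (Function.update J j (Sum.inr p))]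
    · rw [if_pos ⟨h, rfl⟩, map_one, one_mul]
    · intro x _ hx
      rw [if_neg (fun h' => hx h'.2), map_zero, zero_mul]
    · intro hx
      exact absurd (mem_univ _) hx
  · rw [if_neg h]
    refine sum_eq_zero fun x _ => ?_
    rw [if_neg (fun h' => h h'.1), map_zero, zero_mul]

lemma act_eq (Z : Matrix (Fin n) (Fin n) ℂ) (t : (Fin m → Fin s ⊕ Fin n) → ℂ)
    (J : Fin m → Fin s ⊕ Fin n) :
    act (fromBlocks 0 0 0 Z) t J = ∑ p, ∑ q, Z p q * D p q J t := by
  unfold act D
  have h1 : ∀ j, ∑ l, (fromBlocks 0 0 0 Z : Matrix (Fin s ⊕ Fin n) (Fin s ⊕ Fin n) ℂ) l (J j) *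
      t (Function.update J j l) = ∑ p, ∑ q, Z p q *
        (if J j = Sum.inr q then t (Function.update J j (Sum.inr p)) else 0) := by
    intro j
    rw [Fintype.sum_sum_type]
    rcases hJ : J j with b | b
    · simp
    · simp only [fromBlocks_apply₁₂, Matrix.zero_apply, zero_mul, sum_const_zero, zero_add,
        fromBlocks_apply₂₂, Sum.inr.injEq, mul_ite, mul_zero, sum_ite_eq, mem_univ, if_true]
  simp only [h1, mul_sum]
  rw [sum_comm]
  refine sum_congr rfl fun p _ => ?_
  rw [sum_comm]

lemma D_cx (p q : Fin n) (J : Fin m → Fin s ⊕ Fin n) (v : (Fin m → Fin s ⊕ Fin n) → ℚ) :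
    D p q J (cx v) = ((D p q J v : ℚ) : ℂ) := by
  unfold D cx
  rw [Rat.cast_sum]
  refine sum_congr rfl fun j _ => ?_
  split_ifs
  · rfl
  · simp

lemma algK_cx {r : ℕ} (c : Fin n → Fin r) (d : Fin s → Fin r) (a : Fin m → Fin r)
    (v : (Fin m → Fin s ⊕ Fin n) → ℚ) (hv : v ∈ algK (1 : Matrix (Fin n) (Fin n) ℚ) c d a) :
    (fun x => ((v x : ℚ) : ℂ)) ∈ algK (1 : Matrix (Fin n) (Fin n) ℂ) c d a := by
  unfold algK at hv
  induction hv using Submodule.span_induction with
  | mem x hx =>
    obtain ⟨σ, ν, h1, h2, h3, h4⟩ := hx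
    refine Submodule.subset_span ⟨σ, fun j b => ((ν j b : ℚ) : ℂ), h1, h2, ?_, ?_⟩
    · intro j b hb
      refine h3 j b fun h => hb ?_
      simp only [h, Rat.cast_zero]
    · intro J
      simp only
      rw [h4 J, Rat.cast_mul, Rat.cast_prod, Rat.cast_prod]
      congr 1
      · refine prod_congr rfl fun j _ => ?_
        rcases J j with b | b
        · simp
        · simp
      · refine prod_congr rfl fun j _ => ?_
        split_ifs
        · rcases J j with b | b <;> rcases J (σ j) with b' | b' <;>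
            simp [Matrix.one_apply, apply_ite (fun q : ℚ => (q : ℂ))]
        · simp
  | zero =>
    convert (algK (1 : Matrix (Fin n) (Fin n) ℂ) c d a).zero_mem using 1
    funext x
    simp
  | add x y _ _ hx hy =>
    convert (algK (1 : Matrix (Fin n) (Fin n) ℂ) c d a).add_mem hx hy using 1
    funext J
    simp
  | smul q x _ hx =>
    convert (algK (1 : Matrix (Fin n) (Fin n) ℂ) c d a).smul_mem (q : ℂ) hx using 1
    funext J
    simp

theorem hcc (hdk : S_dk) (hcx : S_hcx) : S_hcc := by
  intro n r s m c d a t h1 h2 h3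
  classical
  have hE := hdk ℚ (Rat.castHom ℂ) (Fin m → Fin s ⊕ Fin n)
    {e | ∑ x, (Rat.castHom ℂ) (e x) * t x = 0} t (fun e he => he)
  refine (Submodule.span_le.2 ?_) hE
  rintro u ⟨v, rfl, hv⟩
  have hDt : ∀ p q : Fin n, c p = c q → ∀ J, D p q J t = D q p J t := by
    intro p q hpq J
    have h4 := h1 (Matrix.single p q 1 - Matrix.single q p 1) (by
      rw [transpose_sub, transpose_single, transpose_single]; abel) (by
      intro x y hxy
      rw [Matrix.sub_apply, Matrix.single_apply, Matrix.single_apply]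
      rw [if_neg, if_neg, sub_zero]
      · rintro ⟨rfl, rfl⟩; exact hxy hpq.symm
      · rintro ⟨rfl, rfl⟩; exact hxy hpq)
    have h5 := congrFun h4 J
    rw [act_eq] at h5
    simp only [Matrix.sub_apply, sub_mul, sum_sub_distrib, Matrix.single_apply, ite_and, ite_mul,
      one_mul, zero_mul, Pi.zero_apply] at h5
    simp only [sum_ite_irrel, sum_const_zero, sum_ite_eq, mem_univ, if_true] at h5
    exact sub_eq_zero.1 h5
  have hDv : ∀ p q : Fin n, c p = c q → ∀ J, D p q J v = D q p J v := by
    intro p q hpq J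
    have h4 := hv (fun x => A p q J x - A q p J x) (by
      show ∑ x, (Rat.castHom ℂ) (A p q J x - A q p J x) * t x = 0
      simp only [map_sub, sub_mul, sum_sub_distrib]
      rw [A_sum, A_sum, hDt p q hpq J, sub_self])
    simp only [sub_mul, sum_sub_distrib] at h4
    have h5 := A_sum (RingHom.id ℚ) p q J v
    have h6 := A_sum (RingHom.id ℚ) q p J v
    simp only [RingHom.id_apply] at h5 h6
    rw [h5, h6] at h4
    exact sub_eq_zero.1 h4
  have hvJ : ∀ J, v J ≠ 0 → t J ≠ 0 := by
    intro J hJ ht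
    apply hJ
    have h4 := hv (Pi.single J 1) (by
      show ∑ x, (Rat.castHom ℂ) ((Pi.single J 1 : (Fin m → Fin s ⊕ Fin n) → ℚ) x) * t x = 0
      refine sum_eq_zero fun x _ => ?_
      by_cases hx : x = J
      · rw [hx, ht, mul_zero]
      · rw [Pi.single_eq_of_ne hx, map_zero, zero_mul])
    rw [sum_eq_single J] at h4
    · rwa [Pi.single_eq_same, one_mul] at h4
    · intro x _ hx
      rw [Pi.single_eq_of_ne hx, zero_mul]
    · intro hx
      exact absurd (mem_univ _) hx
  have hmem : v ∈ algK (1 : Matrix (Fin n) (Fin n) ℚ) c d a := by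
    refine hcx n r s m c d a v ?_ (fun J hJ => h2 J (hvJ J hJ)) (fun J hJ => h3 J (hvJ J hJ))
    intro Z hZ hBD
    funext J
    rw [act_eq]
    have h4 : ∀ p q : Fin n, Z p q * D p q J (cx v) = -(Z q p * D q p J (cx v)) := by
      intro p q
      by_cases hpq : c p = c q
      · have h5 : Z q p = - Z p q := by
          have := congrFun (congrFun hZ p) q
          rw [transpose_apply, Matrix.neg_apply] at this
          exact this
        rw [D_cx, D_cx, hDv p q hpq J, h5]
        ring
      · rw [hBD p q hpq, hBD q p (fun h => hpq h.symm), zero_mul, zero_mul, neg_zero]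
    have h6 : ∑ p, ∑ q, Z p q * D p q J (cx v) = - ∑ p, ∑ q, Z p q * D p q J (cx v) := by
      conv_rhs => rw [sum_comm]
      rw [← sum_neg_distrib]
      refine sum_congr rfl fun p _ => ?_
      rw [← sum_neg_distrib]
      exact sum_congr rfl fun q _ => h4 p q
    have h7 : ∀ z : ℂ, z = -z → z = 0 := by
      intro z hz
      have : (2 : ℂ) * z = 0 := by linear_combination hz
      simpa using this
    exact h7 _ h6
  have := algK_cx c d a v hmem
  simpa using this

end

end Pool.Agent.W125.TP.HCC
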